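import Mathlib
import Pool.Agent.HB75.Main

/-!
# Large subsets without bad triangles exist if and only if `δ ≥ 1`

For `δ < 1` the property `P(δ)` fails: the points `R (e^(2πi x_j/M))_j`, `x ∈ (ℤ/M)^d`, are a
counterexample for suitable `M`, `d` and `R`. A subset `A` of density `λ` comes within Hamming
distance `O(√(d/λ))` of more than two thirds of the points (the distance to `A` has variance at most
`d/2`), so some three points `X`, `X + 1`, `X + 2` (where `1 = (1, ..., 1)`) are close to points of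
`A`, and these form a bad triangle, since the two rotations by `2π/M` of all coordinates are nearly
collinear. For `δ ≥ 1` a bad triangle consists of `x`, `(x + z)/2` and `z` with `‖x - z‖ = 2`, hence
`‖x‖² + ‖z‖² - 2 ‖y‖² = 2`, which is impossible inside a class of `⌊‖x‖²⌋` modulo four.
-/

set_option autoImplicit false

namespace Pool.Agent.Results.MP_8cfbc5_co.ThresholdOne

/-- the real Hilbert space `ℓ²` -/
abbrev H : Type := lp (fun _ : ℕ => ℝ) 2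

/-- Two of the three distances are at most `1` and the remaining one is at least `1 + δ`. -/
def Bad (δ : ℝ) (x y z : H) : Prop :=
  (‖x - y‖ ≤ 1 ∧ ‖y - z‖ ≤ 1 ∧ 1 + δ ≤ ‖x - z‖) ∨
  (‖x - y‖ ≤ 1 ∧ ‖x - z‖ ≤ 1 ∧ 1 + δ ≤ ‖y - z‖) ∨
  (‖x - z‖ ≤ 1 ∧ ‖y - z‖ ≤ 1 ∧ 1 + δ ≤ ‖x - y‖)

/-- Property `P(δ)`: for some `λ > 0`, among any `n` points of `ℓ²` there are at least `λ n` (counted
by their indices) without a bad triangle. -/
def P (δ : ℝ) : Prop :=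
  ∃ lam : ℝ, 0 < lam ∧ ∀ n : ℕ, 1 ≤ n → ∀ x : Fin n → H, ∃ I : Finset (Fin n),
    lam * n ≤ I.card ∧ ∀ i ∈ I, ∀ j ∈ I, ∀ k ∈ I, i ≠ j → j ≠ k → i ≠ k →
      ¬ Bad δ (x i) (x j) (x k)

theorem P_of_le {δ : ℝ} (hδ : 1 ≤ δ) : P δ := by
  refine ⟨1 / 4, by norm_num, fun n _ x => ?_⟩
  obtain ⟨I, hI, h⟩ := Pool.Agent.HB75.holds hδ x
  exact ⟨I, hI, fun i hi j hj k hk _ _ _ => h i hi j hj k hk⟩

theorem not_P_of_lt {δ : ℝ} (hδ0 : 0 < δ) (hδ : δ < 1) : ¬ P δ := by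
  rintro ⟨lam, hlam, h⟩
  have he : Orthonormal ℝ (default : HilbertBasis ℕ ℝ H) :=
    (default : HilbertBasis ℕ ℝ H).orthonormal
  obtain ⟨n, hn, x, hx⟩ := Pool.Agent.HB75.fails he hδ0 hδ hlam
  obtain ⟨I, hI, hno⟩ := h n hn x
  obtain ⟨i, hi, j, hj, k, hk, hij, hjk, hik, h1, h2, h3⟩ := hx I hI
  exact hno i hi j hj k hk hij hjk hik (Or.inl ⟨h1, h2, h3⟩)

/-- **Theorem.** For `δ > 0`, property `P(δ)` holds if and only if `δ ≥ 1`. So
`δ^* = sup {δ > 0 : P(δ) fails} = 1`, and `P(δ^*)` holds: there is no largest `δ` for which `P(δ)`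
fails. -/
theorem result : (∀ δ : ℝ, 0 < δ → (P δ ↔ 1 ≤ δ)) ∧ IsLUB {δ : ℝ | 0 < δ ∧ ¬ P δ} 1 := by
  have h1 : ∀ δ : ℝ, 0 < δ → (P δ ↔ 1 ≤ δ) := by
    intro δ hδ
    refine ⟨fun h => ?_, P_of_le⟩
    by_contra hcon
    push Not at hcon
    exact not_P_of_lt hδ hcon h
  refine ⟨h1, ?_⟩
  have h2 : {δ : ℝ | 0 < δ ∧ ¬ P δ} = Set.Ioo 0 1 := by
    ext δ
    constructor
    · rintro ⟨h3, h4⟩
      rw [h1 δ h3] at h4
      exact ⟨h3, not_le.1 h4⟩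
    · rintro ⟨h3, h4⟩
      exact ⟨h3, not_P_of_lt h3 h4⟩
  rw [h2]
  exact isLUB_Ioo zero_lt_one

end Pool.Agent.Results.MP_8cfbc5_co.ThresholdOne
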